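import Pool.Agent.W2helper5.QD.Stm

/-!
Project QD, piece NEGT: area bound for the upper wedge.
-/

set_option autoImplicit false

namespace Pool.Agent.W2helper35.QD

open MeasureTheory Set Pool.V11275.Quad Pool.Agent.Helper717.Hull1 Pool.Agent.Helper717.Hull2
open Pool.Agent.W2helper5.QD

lemma meas_half (a : E2) (c : ℝ) : MeasurableSet {x : E2 | c ≤ dot a x} :=
  (isClosed_le continuous_const (continuous_dot _)).measurableSet

lemma dot_e_zero (x : E2) : dot (e 0) x = x 0 := by simp [dot]

lemma sg_sq (m : ℕ) : sg m * sg m = 1 := by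
  unfold sg; split_ifs <;> norm_num

lemma sg_cases (m : ℕ) : sg m = 1 ∨ sg m = -1 := by
  unfold sg; split_ifs <;> simp

theorem NEGT : P_NEGT := by
  intro hC m hm hodd hB hR hT hh0 htop θ hθ hθ4
  set α := al m with hα
  have hmpos : (0 : ℝ) < m := by
    have : 0 < m := by omega
    exact_mod_cast this
  have hm5 : (5 : ℝ) ≤ m := by exact_mod_cast hm
  have hα0 : 0 < α := by
    rw [hα, al]; exact div_pos Real.pi_pos hmpos
  have hα5 : α ≤ Real.pi / 5 := by
    rw [hα, al]; exact div_le_div_of_nonneg_left Real.pi_pos.le (by norm_num) hm5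
  obtain ⟨-, hxi, -⟩ := hT α hα0 hα5
  have hpi := Real.pi_pos
  have hsα2 : 0 < Real.sin (α / 2) := Real.sin_pos_of_pos_of_lt_pi (by linarith) (by linarith)
  have hcα : 0 < Real.cos α := Real.cos_pos_of_mem_Ioo ⟨by linarith, by linarith⟩
  have hcα2 : 0 < Real.cos (α / 2) := Real.cos_pos_of_mem_Ioo ⟨by linarith, by linarith⟩
  have hsθ : 0 < Real.sin θ := Real.sin_pos_of_pos_of_lt_pi hθ (by linarith)
  have hcm : 0 < Real.cos (α / 2 - θ) := Real.cos_pos_of_mem_Ioo ⟨by linarith, by linarith⟩
  have hcp : 0 < Real.cos (α / 2 + θ) := Real.cos_pos_of_mem_Ioo ⟨by linarith, by linarith⟩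
  obtain ⟨hBody, -⟩ := hR m (by omega)
  obtain ⟨hb1, -⟩ := hB (P m) hBody
  set s := sg m with hs
  set x0 := s * xi α with hx0
  set h := hh (P m) θ with hhdef
  set Y2 := (h - x0 * Real.cos θ) / Real.sin θ with hY2
  have hY2' : Y2 * Real.sin θ = h - x0 * Real.cos θ := by
    rw [hY2]; field_simp
  have hss : s * s = 1 := sg_sq m
  set A := Real.cos α + xi α * Real.sin (α / 2) with hA
  have hA0 : 0 < A := by positivity
  set U' : Set E2 := {p | h ≤ dot (e θ) p} with hU'
  set U0 : Set E2 := {p | x0 ≤ p 0} with hU0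
  have hU0e : U0 = {p : E2 | x0 ≤ dot (e 0) p} := by
    ext p; simp only [hU0, mem_ofPred_eq, dot_e_zero]
  have mU' : MeasurableSet U' := meas_half _ _
  have mU0 : MeasurableSet U0 := by rw [hU0e]; exact meas_half _ _
  have := hBody.fin
  -- equal measures
  have e1 : (mu (P m)).real U' = M (P m) / 2 := hb1 θ
  have e2 : (mu (P m)).real U0 = M (P m) / 2 := by
    have := hb1 0
    rw [hh0] at this
    rw [hU0e]; exact this
  have e3 : (mu (P m)).real (U' \ U0) = (mu (P m)).real (U0 \ U') := by
    have i1 := measureReal_inter_add_sdiff (μ := mu (P m)) (s := U') mU0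
    have i2 := measureReal_inter_add_sdiff (μ := mu (P m)) (s := U0) mU'
    rw [inter_comm] at i2
    linarith
  -- the two cones
  set X2 : E2 := !₂[x0, Y2] with hX2
  have X20 : X2 0 = x0 := rfl
  have X21 : X2 1 = Y2 := rfl
  have csθ : Real.cos (θ + Real.pi / 2) = - Real.sin θ := Real.cos_add_pi_div_two θ
  have snθ : Real.sin (θ + Real.pi / 2) = Real.cos θ := Real.sin_add_pi_div_two θ
  have dmem : ∀ p : E2, dot (e θ) p = Real.cos θ * p 0 + Real.sin θ * p 1 := fun p => by
    simp [dot]
  have csum : ∀ t : ℝ, (t = 1 ∨ t = -1) → 0 < t * Real.sin (α / 2) * Real.sin θ +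
      Real.cos (α / 2) * Real.cos θ := by
    intro t ht
    rcases ht with rfl | rfl
    · have := hcm; rw [Real.cos_sub] at this; linarith
    · have := hcp; rw [Real.cos_add] at this; linarith
  have hs1 := sg_cases m
  rw [← hs] at hs1
  have hTop : (mu (P m)).real (U' \ U0) ≤ (max 0 (A - Real.cos (α / 2) * Y2)) ^ 2 * Real.sin θ /
      (2 * Real.cos (α / 2) * (s * Real.sin (α / 2) * Real.sin θ +
        Real.cos (α / 2) * Real.cos θ)) := by
    have key := hC (P m) hBody (U' \ U0) X2 (e (Real.pi / 2)) (e (θ + Real.pi / 2))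
      !₂[-(s * Real.sin (α / 2)), Real.cos (α / 2)] (Real.cos α)
      (by rw [cr_e]; simpa using hsθ) (by simpa [dot] using hcα2)
      (by
        have := csum s hs1
        simp only [dot, e_zero', e_one', csθ, snθ]
        simp
        linarith)
      (by
        rintro p ⟨hp1, hp2⟩ hpR
        simp only [hU', hU0, mem_ofPred_eq, not_le] at hp1 hp2
        have h3 := htop p hpR
        refine ⟨?_, ?_, ?_⟩
        · simp only [cr, e_zero', e_one', Real.cos_pi_div_two, Real.sin_pi_div_two]
          simp only [PiLp.sub_apply, X20, X21]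
          linarith
        · simp only [cr, e_zero', e_one', csθ, snθ]
          simp only [PiLp.sub_apply, X20, X21]
          rw [dmem] at hp1
          nlinarith [hY2']
        · simp only [dot]
          simp
          have := mul_le_mul_of_nonneg_right (le_abs_self (p 1)) hcα2.le
          linarith)
    have e4 : Real.cos α - dot !₂[-(s * Real.sin (α / 2)), Real.cos (α / 2)] X2 =
        A - Real.cos (α / 2) * Y2 := by
      simp only [dot, X20, X21]
      simp
      rw [hA, hx0]
      linear_combination (Real.sin (α / 2) * xi α) * hss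
    have e5 : cr (e (Real.pi / 2)) (e (θ + Real.pi / 2)) = Real.sin θ := by
      rw [cr_e]; congr 1; ring
    have e6 : dot !₂[-(s * Real.sin (α / 2)), Real.cos (α / 2)] (e (Real.pi / 2)) =
        Real.cos (α / 2) := by
      simp [dot]
    have e7 : dot !₂[-(s * Real.sin (α / 2)), Real.cos (α / 2)] (e (θ + Real.pi / 2)) =
        s * Real.sin (α / 2) * Real.sin θ + Real.cos (α / 2) * Real.cos θ := by
      simp [dot, csθ, snθ]
    rw [e4, e5, e6, e7] at key
    exact key
  have hBot : (mu (P m)).real (U0 \ U') ≤ (max 0 (A + Real.cos (α / 2) * Y2)) ^ 2 * Real.sin θ /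
      (2 * Real.cos (α / 2) * (-s * Real.sin (α / 2) * Real.sin θ +
        Real.cos (α / 2) * Real.cos θ)) := by
    have key := hC (P m) hBody (U0 \ U') X2 (-e (Real.pi / 2)) (-e (θ + Real.pi / 2))
      !₂[-(s * Real.sin (α / 2)), -Real.cos (α / 2)] (Real.cos α)
      (by
        have : cr (-e (Real.pi / 2)) (-e (θ + Real.pi / 2)) =
          cr (e (Real.pi / 2)) (e (θ + Real.pi / 2)) := by simp [cr]
        rw [this, cr_e]; simpa using hsθ) (by simpa [dot] using hcα2)
      (by
        have := csum (-s) (by rcases hs1 with h | h <;> simp [h])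
        simp [dot, csθ, snθ]
        linarith)
      (by
        rintro p ⟨hp1, hp2⟩ hpR
        simp only [hU', hU0, mem_ofPred_eq, not_le] at hp1 hp2
        have h3 := htop p hpR
        refine ⟨?_, ?_, ?_⟩
        · simp [cr, X20, X21]
          linarith
        · simp [cr, X20, X21, csθ, snθ]
          rw [dmem] at hp2
          nlinarith [hY2']
        · simp only [dot]
          simp
          have := mul_le_mul_of_nonneg_right (neg_abs_le (p 1)) hcα2.le
          linarith)
    have e4 : Real.cos α - dot !₂[-(s * Real.sin (α / 2)), -Real.cos (α / 2)] X2 =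
        A + Real.cos (α / 2) * Y2 := by
      simp only [dot, X20, X21]
      simp
      rw [hA, hx0]
      linear_combination (Real.sin (α / 2) * xi α) * hss
    have e5 : cr (-e (Real.pi / 2)) (-e (θ + Real.pi / 2)) = Real.sin θ := by
      have : cr (-e (Real.pi / 2)) (-e (θ + Real.pi / 2)) =
          cr (e (Real.pi / 2)) (e (θ + Real.pi / 2)) := by simp [cr]
      rw [this, cr_e]; congr 1; ring
    have e6 : dot !₂[-(s * Real.sin (α / 2)), -Real.cos (α / 2)] (-e (Real.pi / 2)) =
        Real.cos (α / 2) := by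
      simp [dot]
    have e7 : dot !₂[-(s * Real.sin (α / 2)), -Real.cos (α / 2)] (-e (θ + Real.pi / 2)) =
        -s * Real.sin (α / 2) * Real.sin θ + Real.cos (α / 2) * Real.cos θ := by
      simp [dot, csθ, snθ]
    rw [e4, e5, e6, e7] at key
    exact key
  -- the square roots
  have hsum : Real.sqrt (s * Real.sin (α / 2) * Real.sin θ + Real.cos (α / 2) * Real.cos θ) +
      Real.sqrt (-s * Real.sin (α / 2) * Real.sin θ + Real.cos (α / 2) * Real.cos θ) =
      Real.sqrt (Real.cos (α / 2 - θ)) + Real.sqrt (Real.cos (α / 2 + θ)) := by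
    rw [Real.cos_sub, Real.cos_add]
    rcases hs1 with h | h
    · rw [h]
      congr 2
      · ring
      · ring
    · rw [h, add_comm]
      congr 2
      · ring
      · ring
  set q1 := s * Real.sin (α / 2) * Real.sin θ + Real.cos (α / 2) * Real.cos θ with hq1
  set q2 := -s * Real.sin (α / 2) * Real.sin θ + Real.cos (α / 2) * Real.cos θ with hq2
  have hq1p : 0 < q1 := csum s hs1
  have hq2p : 0 < q2 := csum (-s) (by rcases hs1 with h | h <;> simp [h])
  have r1 : 0 < Real.sqrt q1 := Real.sqrt_pos.2 hq1p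
  have r2 : 0 < Real.sqrt q2 := Real.sqrt_pos.2 hq2p
  have r1s : Real.sqrt q1 ^ 2 = q1 := Real.sq_sqrt hq1p.le
  have r2s : Real.sqrt q2 ^ 2 = q2 := Real.sq_sqrt hq2p.le
  have hZ : ZZ α θ = (2 * A / (Real.sqrt q1 + Real.sqrt q2)) ^ 2 := by
    unfold ZZ
    rw [← hsum, ← hA]
    rw [div_pow]; ring
  set w := 2 * A / (Real.sqrt q1 + Real.sqrt q2) with hw
  have hw0 : 0 ≤ w := by positivity
  have hwe : w * (Real.sqrt q1 + Real.sqrt q2) = 2 * A := by
    rw [hw]; field_simp
  have gen : ∀ D q : ℝ, 0 < q → D ≤ w * Real.sqrt q →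
      (max 0 D) ^ 2 * Real.sin θ / (2 * Real.cos (α / 2) * q) ≤
      ZZ α θ * Real.sin θ / (2 * Real.cos (α / 2)) := by
    intro D q hq hD
    have h1 : (max 0 D) ^ 2 ≤ ZZ α θ * q := by
      have h2 : max 0 D ≤ w * Real.sqrt q := max_le (by positivity) hD
      calc (max 0 D) ^ 2 ≤ (w * Real.sqrt q) ^ 2 :=
            pow_le_pow_left₀ (le_max_left _ _) h2 2
        _ = ZZ α θ * q := by rw [mul_pow, Real.sq_sqrt hq.le, hZ]
    rw [div_le_div_iff₀ (by positivity) (by positivity)]
    have h3 : 0 ≤ Real.sin θ * (2 * Real.cos (α / 2)) := by positivity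
    nlinarith [mul_le_mul_of_nonneg_right h1 h3]
  rcases le_or_gt (A - Real.cos (α / 2) * Y2) (w * Real.sqrt q1) with hc | hc
  · exact hTop.trans (gen _ _ hq1p hc)
  · rw [e3]
    refine hBot.trans (gen _ _ hq2p ?_)
    nlinarith [hwe]

end Pool.Agent.W2helper35.QD
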